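import Mathlib
import Pool.Agent.H97.EM.Rel.Main

set_option autoImplicit false

namespace Pool.Agent.Results.MP_6c31bc_lc.LowCopies

open Pool.Agent.H97.EM

/-- Let `T` be an Ehrenfeucht theory with computable types and `M` a countable model of `T`.
If `X' ≤ Y'` and `M` has a copy whose elementary diagram is computable in `X`, then `M` has a
copy whose elementary diagram is computable in `Y`. In particular `M` is decidable if and only if
it has a copy whose elementary diagram is computable in some low set. -/
theorem result :
    ∀ T : Set Fml, IsComplete T → FinMany T → CompTypes T →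
    ∀ M : Str, IsModel M T →
      (∀ X Y : ℕ → Bool, JumpLe X Y → DecModelIn X M → DecModelIn Y M) ∧
      (DecModel M ↔ ∃ X : ℕ → Bool, Low X ∧ DecModelIn X M) := by
  intro T hc hf ht M hM
  exact ⟨fun X Y hXY h => jump_rel hc hf ht hM hXY h, jump hc hf ht hM⟩

end Pool.Agent.Results.MP_6c31bc_lc.LowCopies
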