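import Mathlib
import Pool.Agent.H97.EM.Lim.Three

set_option autoImplicit false

namespace Pool.Agent.Results.MP_6c31bc_lc.UniqueLimits

open Pool.Agent.H97.EM

/-- Let `T` be an Ehrenfeucht theory with computable types. If there is a limit model over the
almost prime model `B` of `T` then there is a decidable limit model over `B`. Hence, if any two
limit models over the same almost prime model are isomorphic, then every countable model of `T`
is decidable. -/
theorem result :
    ∀ T : Set Fml, IsComplete T → FinMany T → CompTypes T →
      (∀ B N : Str, IsModel B T → AlmostPrime B → LimitOver B N →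
        ∃ L : Str, LimitOver B L ∧ DecModel L) ∧
      ((∀ B N N' : Str, IsModel B T → AlmostPrime B → LimitOver B N → LimitOver B N' →
        Iso N N') → ∀ M : Str, IsModel M T → DecModel M) := by
  intro T hc hf ht
  exact ⟨fun B N hB hap h => limit_dec hc hf ht hB hap h,
    fun hu M hM => unique_limits hc hf ht hu hM⟩

end Pool.Agent.Results.MP_6c31bc_lc.UniqueLimits
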